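import Mathlib

namespace Pool.Agent.Results.MP_3ec6a8_co.BlockParity

open SimpleGraph

/-- A rainbow matching: one edge of each `F i`, pairwise vertex-disjoint. -/
def HasRainbowMatching {V : Type} {k : ℕ} (F : Fin k → SimpleGraph V) : Prop :=
  ∃ e : Fin k → Sym2 V, (∀ i, e i ∈ (F i).edgeSet) ∧
    ∀ i j, i ≠ j → ∀ v, v ∈ e i → v ∉ e j

def adjB (i : Fin 4) (a b : Fin 8) : Bool :=
  decide (a.val / 4 ≠ b.val / 4) &&
    (if i = 0 then decide (a.val / 2 % 2 ≠ b.val / 2 % 2) else decide (a.val / 2 % 2 = b.val / 2 % 2))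

def G (i : Fin 4) : SimpleGraph (Fin 8) where
  Adj a b := adjB i a b = true
  symm := ⟨by revert i; decide⟩
  loopless := ⟨by revert i; decide⟩

instance (i : Fin 4) : DecidableRel (G i).Adj := fun a b => inferInstanceAs (Decidable (adjB i a b = true))

def D (a b c d : Fin 8) : Prop := a ≠ c ∧ a ≠ d ∧ b ≠ c ∧ b ≠ d

instance (a b c d : Fin 8) : Decidable (D a b c d) := by unfold D; infer_instance

set_option synthInstance.maxSize 4000 in
lemma key : ∀ a0 b0 : Fin 8, adjB 0 a0 b0 = true → ∀ a1 b1 : Fin 8, adjB 1 a1 b1 = true →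
    D a0 b0 a1 b1 → ∀ a2 b2 : Fin 8, adjB 2 a2 b2 = true → D a0 b0 a2 b2 → D a1 b1 a2 b2 →
    ∀ a3 b3 : Fin 8, adjB 3 a3 b3 = true → D a0 b0 a3 b3 → D a1 b1 a3 b3 →
    ¬ D a2 b2 a3 b3 := by
  decide +kernel

lemma no_rainbow : ¬ HasRainbowMatching G := by
  rintro ⟨e, he, hd⟩
  have hx : ∀ i, ∃ p : Fin 8 × Fin 8, e i = s(p.1, p.2) := fun i => by
    induction e i using Sym2.ind with
    | h a b => exact ⟨(a, b), rfl⟩
  choose p hp using hx
  have hA : ∀ i, adjB i (p i).1 (p i).2 = true := fun i => by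
    have := he i
    rw [hp i] at this
    exact this
  have hD : ∀ i j, i ≠ j → D (p i).1 (p i).2 (p j).1 (p j).2 := fun i j hij => by
    have h1 := hd i j hij (p i).1 (by rw [hp i]; simp)
    have h2 := hd i j hij (p i).2 (by rw [hp i]; simp)
    rw [hp j] at h1 h2
    simp only [Sym2.mem_iff, not_or] at h1 h2
    exact ⟨h1.1, h1.2, h2.1, h2.2⟩
  exact key _ _ (hA 0) _ _ (hA 1) (hD 0 1 (by decide)) _ _ (hA 2) (hD 0 2 (by decide))
    (hD 1 2 (by decide)) _ _ (hA 3) (hD 0 3 (by decide)) (hD 1 3 (by decide)) (hD 2 3 (by decide))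

theorem result :
    ∃ (d k n : ℕ) (F : Fin k → SimpleGraph (Fin n)) (side : Fin n → Bool),
      1 < d ∧ 1 ≤ k ∧
      (∀ i, (F i).IsBipartite) ∧
      (∀ i a b, (F i).Adj a b → side a ≠ side b) ∧
      (∀ i v, ((F i).neighborSet v).ncard ≤ d) ∧
      (∀ i, (k - 1) * d < (F i).edgeSet.ncard) ∧
      ¬ HasRainbowMatching F := by
  have hs : ∀ (i : Fin 4) (a b : Fin 8), adjB i a b = true →
      decide (a.val < 4) ≠ decide (b.val < 4) := by decide
  refine ⟨2, 4, 8, G, fun a => decide (a.val < 4), by norm_num, by norm_num, ?_, hs, ?_, ?_,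
    no_rainbow⟩
  · intro i
    exact ⟨Coloring.mk (fun a => if a.val < 4 then (0 : Fin 2) else 1) (by
      intro a b hab
      have := hs i a b hab
      by_cases ha : a.val < 4 <;> by_cases hb : b.val < 4 <;> simp_all)⟩
  · intro i v
    rw [Set.ncard_eq_toFinset_card']
    revert i v
    decide +kernel
  · intro i
    rw [Set.ncard_eq_toFinset_card']
    revert i
    decide +kernel

end Pool.Agent.Results.MP_3ec6a8_co.BlockParity
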